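import Pool.Agent.MP_a6acde_co.h17.Asym

namespace Pool.Agent.Results.MP_a6acde_co.Asymptotic

open Filter Topology Pool.Agent.MP_a6acde_co

/-- The two-colour Ramsey number of degree-monotone paths is asymptotic to `(m-1)^2`. -/
theorem result : Tendsto (fun m : ℕ => (M2 m : ℝ) / ((m : ℝ) - 1) ^ 2) atTop (𝓝 1) := by
  rw [← tendsto_add_atTop_iff_nat 1]
  simpa using H17.tendsto_succ

end Pool.Agent.Results.MP_a6acde_co.Asymptotic
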