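import Mathlib
import Pool.Agent.MP_a6acde_co.Lower

namespace Pool.Agent.Results.MP_a6acde_co.ExactInfOften

open Pool.Agent.MP_a6acde_co

/-- For infinitely many `m` the two-colour Ramsey number of degree-monotone paths equals the known
upper bound `(m-1)^2+1`; hence `(m-1)^2 - M_2(m)` does not tend to infinity. -/
theorem result : ∀ m₀ : ℕ, ∃ m : ℕ, m₀ ≤ m ∧ 3 ≤ m ∧ M2 m = (m - 1) ^ 2 + 1 := by
  intro m₀
  have h1 : m₀ + 3 < 6 ^ (m₀ + 3) := Nat.lt_pow_self (by norm_num)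
  exact ⟨6 ^ (m₀ + 3) + 1, by omega, by omega, by simpa using M2_eq m₀⟩

end Pool.Agent.Results.MP_a6acde_co.ExactInfOften
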